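import Mathlib

/-! Multiplicities, singular points and the h-constant of a complex projective plane curve. -/

namespace Pool.Agent.Lib.MP_81ecef_ag

open MvPolynomial

/-- The iterated derivative of `F` with respect to the variables listed in `l`. -/
noncomputable def iterD (l : List (Fin 3)) (F : MvPolynomial (Fin 3) ℂ) :
    MvPolynomial (Fin 3) ℂ :=
  l.foldr (fun i G => pderiv i G) F

/-- The multiplicity of the curve `F = 0` at a point `x` of the projective plane: the least order
of an iterated derivative of `F` that does not vanish at (a representative vector of) `x`. -/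
noncomputable def mult (F : MvPolynomial (Fin 3) ℂ) (x : Projectivization ℂ (Fin 3 → ℂ)) : ℕ :=
  sInf {k | ∃ l : List (Fin 3), l.length = k ∧ eval x.rep (iterD l F) ≠ 0}

/-- The singular points of the curve `F = 0`. -/
def Sing (F : MvPolynomial (Fin 3) ℂ) : Set (Projectivization ℂ (Fin 3 → ℂ)) :=
  {x | 2 ≤ mult F x}

/-- The h-constant `(d ^ 2 - ∑ m_x ^ 2) / s` of the curve `F = 0`. -/
noncomputable def hConst (F : MvPolynomial (Fin 3) ℂ) : ℝ :=
  ((F.totalDegree : ℝ) ^ 2 - ∑ᶠ x ∈ Sing F, (mult F x : ℝ) ^ 2) / (Sing F).ncard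

end Pool.Agent.Lib.MP_81ecef_ag
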