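import Mathlib
import Pool.Agent.Lib.MP_81ecef_ag.Defs

/-! An irreducible plane curve has finitely many singular points; lower bounds for
multiplicities. -/

namespace Pool.Agent.Lib.MP_81ecef_ag

open MvPolynomial

theorem eval_smul_of_isHomogeneous {H : MvPolynomial (Fin 3) ℂ} {e : ℕ} (hH : H.IsHomogeneous e)
    (a : ℂ) (v : Fin 3 → ℂ) : eval (a • v) H = a ^ e * eval v H := by
  rw [eval_eq', eval_eq', Finset.mul_sum]
  refine Finset.sum_congr rfl fun d hd => ?_
  have h1 : ∑ i, d i = e := by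
    have := hH (mem_support_iff.1 hd)
    rw [← this, Finsupp.weight_apply, Finsupp.sum_fintype _ _ (by simp)]
    simp
  simp only [Pi.smul_apply, smul_eq_mul, mul_pow, Finset.prod_mul_distrib,
    Finset.prod_pow_eq_pow_sum, h1]
  ring

/-- Elimination of the first variable. -/
theorem exists_elim {G H : MvPolynomial (Fin 3) ℂ} (hG : Prime G) (hH : ¬ G ∣ H) :
    ∃ r : MvPolynomial (Fin 2) ℂ, r ≠ 0 ∧
      ∀ v : Fin 3 → ℂ, eval v G = 0 → eval v H = 0 → eval (Fin.tail v) r = 0 := by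
  set e := finSuccEquiv ℂ 2 with he
  have hg : Prime (e G) := (MulEquiv.prime_iff e.toMulEquiv).2 hG
  have hh : ¬ e G ∣ e H := fun h => hH (by simpa using map_dvd e.symm h)
  have := AdjoinRoot.isDomain_of_prime hg
  have hroot : IsAlgebraic (MvPolynomial (Fin 2) ℂ) (AdjoinRoot.root (e G)) :=
    ⟨e G, hg.ne_zero, by rw [AdjoinRoot.aeval_eq, AdjoinRoot.mk_self]⟩
  have halg : ∀ p : Polynomial (MvPolynomial (Fin 2) ℂ),
      IsAlgebraic (MvPolynomial (Fin 2) ℂ) (AdjoinRoot.mk (e G) p) := by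
    intro p
    induction p using Polynomial.induction_on' with
    | add p q hp hq => rw [map_add]; exact hp.add hq
    | monomial n a =>
      rw [← Polynomial.C_mul_X_pow_eq_monomial, map_mul, map_pow, AdjoinRoot.mk_X,
        AdjoinRoot.mk_C]
      exact (isAlgebraic_algebraMap a).mul (hroot.pow n)
  have hne : AdjoinRoot.mk (e G) (e H) ≠ 0 := fun h => hh (AdjoinRoot.mk_eq_zero.1 h)
  obtain ⟨r, hr, s, hs⟩ := (halg (e H)).exists_nonzero_dvd (mem_nonZeroDivisors_of_ne_zero hne)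
  obtain ⟨s, rfl⟩ := AdjoinRoot.mk_surjective s
  have h1 : e G ∣ Polynomial.C r - e H * s := by
    rw [← AdjoinRoot.mk_eq_mk, map_mul, ← hs, AdjoinRoot.mk_C]
    rfl
  obtain ⟨q, hq⟩ := h1
  refine ⟨r, hr, fun v hvG hvH => ?_⟩
  rw [← Fin.cons_self_tail v, eval_eq_eval_mv_eval', ← he] at hvG hvH
  have h2 := congrArg (fun p => Polynomial.eval (v 0) (Polynomial.map (eval (Fin.tail v)) p)) hq
  simp only [Polynomial.map_sub, Polynomial.map_mul, Polynomial.map_C, Polynomial.eval_sub,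
    Polynomial.eval_mul, Polynomial.eval_C, hvG, hvH, zero_mul, sub_zero] at h2
  exact h2

theorem finite_ratio_aux {G H : MvPolynomial (Fin 3) ℂ} {d e : ℕ} (hGd : G.IsHomogeneous d)
    (hHe : H.IsHomogeneous e) (hG : Prime G) (hH : ¬ G ∣ H) :
    ∃ S : Set ℂ, S.Finite ∧
      ∀ v : Fin 3 → ℂ, eval v G = 0 → eval v H = 0 → v 2 ≠ 0 → v 1 / v 2 ∈ S := by
  obtain ⟨r, hr, hrv⟩ := exists_elim hG hH
  have h1 : ∃ w : Fin 2 → ℂ, eval w (r * X 1) ≠ 0 := by
    by_contra h
    push Not at h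
    exact mul_ne_zero hr (X_ne_zero 1) (MvPolynomial.funext fun w => by rw [h w, map_zero])
  obtain ⟨w, hw⟩ := h1
  rw [map_mul, eval_X, mul_ne_zero_iff] at hw
  let q : Polynomial ℂ := aeval ![Polynomial.X, Polynomial.C (w 1)] r
  have hq : ∀ y, q.eval y = eval ![y, w 1] r := by
    intro y
    have : (Polynomial.aeval y : Polynomial ℂ →ₐ[ℂ] ℂ).comp
        (aeval ![Polynomial.X, Polynomial.C (w 1)]) = aeval ![y, w 1] := by
      refine MvPolynomial.algHom_ext fun i => ?_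
      fin_cases i <;> simp
    have h2 := DFunLike.congr_fun this r
    simpa [q, Polynomial.coe_aeval_eq_eval] using h2
  have hq0 : q ≠ 0 := by
    intro h
    have h2 := hq (w 0)
    have h3 : ![w 0, w 1] = w := by
      funext i
      fin_cases i <;> rfl
    rw [h, h3, Polynomial.eval_zero] at h2
    exact hw.1 h2.symm
  refine ⟨(fun y => y / w 1) '' {y | q.IsRoot y}, (Polynomial.finite_setOfPred_isRoot hq0).image _,
    fun v h1 h2 h3 => ⟨w 1 / v 2 * v 1, ?_, ?_⟩⟩
  · have h4 := hrv ((w 1 / v 2) • v) (by rw [eval_smul_of_isHomogeneous hGd, h1, mul_zero])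
      (by rw [eval_smul_of_isHomogeneous hHe, h2, mul_zero])
    have h5 : Fin.tail ((w 1 / v 2) • v) = ![w 1 / v 2 * v 1, w 1] := by
      funext i
      fin_cases i
      · rfl
      · change w 1 / v 2 * v 2 = w 1
        field_simp
    rw [h5, ← hq] at h4
    exact h4
  · have := hw.2
    change w 1 / v 2 * v 1 / w 1 = _
    field_simp

theorem finite_ratio {G H : MvPolynomial (Fin 3) ℂ} {d e : ℕ} (hGd : G.IsHomogeneous d)
    (hHe : H.IsHomogeneous e) (hG : Prime G) (hH : ¬ G ∣ H) (σ : Equiv.Perm (Fin 3)) :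
    ∃ S : Set ℂ, S.Finite ∧
      ∀ v : Fin 3 → ℂ, eval v G = 0 → eval v H = 0 → v (σ 2) ≠ 0 → v (σ 1) / v (σ 2) ∈ S := by
  have hG' : Prime (rename σ.symm G) :=
    (MulEquiv.prime_iff (renameEquiv ℂ σ.symm).toMulEquiv).2 hG
  have hH' : ¬ rename σ.symm G ∣ rename σ.symm H := fun h => hH (by
    simpa using map_dvd (rename σ : MvPolynomial (Fin 3) ℂ →ₐ[ℂ] MvPolynomial (Fin 3) ℂ) h)
  obtain ⟨S, hS, h⟩ := finite_ratio_aux hGd.rename_isHomogeneous hHe.rename_isHomogeneous hG' hH'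
  refine ⟨S, hS, fun v h1 h2 h3 => h (v ∘ σ) ?_ ?_ h3⟩
  · rw [eval_rename, Function.comp_assoc, Equiv.self_comp_symm, Function.comp_id, h1]
  · rw [eval_rename, Function.comp_assoc, Equiv.self_comp_symm, Function.comp_id, h2]

/-- Two coprime forms have finitely many common zeros in the projective plane. -/
theorem finite_common_zeros {G H : MvPolynomial (Fin 3) ℂ} {d e : ℕ} (hGd : G.IsHomogeneous d)
    (hHe : H.IsHomogeneous e) (hG : Prime G) (hH : ¬ G ∣ H) :
    {x : Projectivization ℂ (Fin 3 → ℂ) | eval x.rep G = 0 ∧ eval x.rep H = 0}.Finite := by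
  choose S hS h using finite_ratio hGd hHe hG hH
  have hT : (insert 1 (⋃ σ, S σ)).Finite := (Set.finite_iUnion hS).insert 1
  have hperm : ∀ j k : Fin 3, j ≠ k → ∃ σ : Equiv.Perm (Fin 3), σ 1 = j ∧ σ 2 = k := by decide
  have hk : ∀ k : Fin 3, {x : Projectivization ℂ (Fin 3 → ℂ) |
      (eval x.rep G = 0 ∧ eval x.rep H = 0) ∧ x.rep k ≠ 0}.Finite := by
    intro k
    refine Set.Finite.of_finite_image (f := fun x j => x.rep j / x.rep k)
      ((Set.Finite.pi' fun _ : Fin 3 => hT).subset ?_) ?_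
    · rintro _ ⟨x, ⟨⟨h1, h2⟩, h3⟩, rfl⟩ j
      by_cases hjk : j = k
      · left
        rw [hjk]
        exact div_self h3
      · right
        obtain ⟨σ, rfl, rfl⟩ := hperm j k hjk
        exact Set.mem_iUnion.2 ⟨σ, h σ _ h1 h2 h3⟩
    · rintro x ⟨-, hx⟩ y ⟨-, hy⟩ hxy
      rw [← x.mk_rep, ← y.mk_rep, Projectivization.mk_eq_mk_iff']
      refine ⟨x.rep k / y.rep k, funext fun j => ?_⟩
      have := congrFun hxy j
      simp only at this
      rw [Pi.smul_apply, smul_eq_mul]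
      field_simp at this ⊢
      linear_combination -this
  refine (Set.finite_iUnion hk).subset fun x hx => ?_
  obtain ⟨k, hk⟩ := Function.ne_iff.1 x.rep_nonzero
  exact Set.mem_iUnion.2 ⟨k, hx, hk⟩

theorem exists_pderiv_ne_zero {F : MvPolynomial (Fin 3) ℂ} {d : ℕ} (hF : F.IsHomogeneous d)
    (hd : d ≠ 0) (h0 : F ≠ 0) : ∃ i, pderiv i F ≠ 0 := by
  by_contra h
  push Not at h
  have := hF.sum_X_mul_pderiv
  simp only [h, mul_zero, Finset.sum_const_zero] at this
  rw [eq_comm, nsmul_eq_mul, mul_eq_zero] at this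
  rcases this with h1 | h1
  · exact hd (by exact_mod_cast h1)
  · exact h0 h1

theorem finite_sing {F : MvPolynomial (Fin 3) ℂ} {d : ℕ} (hF : F.IsHomogeneous d)
    (hirr : Irreducible F) : (Sing F).Finite := by
  have h0 := hirr.ne_zero
  have hd : d ≠ 0 := by
    rintro rfl
    have h1 := hF.totalDegree h0
    rw [totalDegree_eq_zero_iff_eq_C] at h1
    refine hirr.not_isUnit ?_
    rw [h1] at h0 ⊢
    exact IsUnit.map C (isUnit_iff_ne_zero.2 fun h => h0 (by rw [h, C_0]))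
  obtain ⟨i, hi⟩ := exists_pderiv_ne_zero hF hd h0
  have hndvd : ¬ F ∣ pderiv i F := by
    intro h
    have := totalDegree_le_of_dvd_of_isDomain h hi
    rw [hF.totalDegree h0, hF.pderiv.totalDegree hi] at this
    omega
  refine (finite_common_zeros hF hF.pderiv hirr.prime hndvd).subset fun x hx => ⟨?_, ?_⟩
  · by_contra h
    have : mult F x ≤ 0 := Nat.sInf_le ⟨[], rfl, h⟩
    have h2 : 2 ≤ mult F x := hx
    omega
  · by_contra h
    have : mult F x ≤ 1 := Nat.sInf_le ⟨[i], rfl, h⟩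
    have h2 : 2 ≤ mult F x := hx
    omega

theorem exists_iterD_ne_zero (v : Fin 3 → ℂ) : ∀ (d : ℕ) (F : MvPolynomial (Fin 3) ℂ),
    F.IsHomogeneous d → F ≠ 0 → ∃ l, eval v (iterD l F) ≠ 0 := by
  intro d
  induction d with
  | zero =>
    intro F hF h0
    have h1 := hF.totalDegree h0
    rw [totalDegree_eq_zero_iff_eq_C] at h1
    refine ⟨[], ?_⟩
    change eval v F ≠ 0
    rw [h1] at h0 ⊢
    rw [eval_C]
    exact fun h => h0 (by rw [h, C_0])
  | succ d ih =>
    intro F hF h0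
    obtain ⟨i, hi⟩ := exists_pderiv_ne_zero hF (by omega) h0
    obtain ⟨l, hl⟩ := ih _ hF.pderiv hi
    refine ⟨l ++ [i], ?_⟩
    unfold iterD at hl ⊢
    rw [List.foldr_append]
    exact hl

theorem iterD_isHomogeneous {F : MvPolynomial (Fin 3) ℂ} {d : ℕ} (hF : F.IsHomogeneous d)
    (l : List (Fin 3)) : ∃ e, (iterD l F).IsHomogeneous e := by
  induction l with
  | nil => exact ⟨d, hF⟩
  | cons i l ih =>
    obtain ⟨e, he⟩ := ih
    exact ⟨e - 1, he.pderiv⟩

theorem le_mult {F : MvPolynomial (Fin 3) ℂ} {d : ℕ} (hF : F.IsHomogeneous d) (h0 : F ≠ 0)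
    {v : Fin 3 → ℂ} (hv : v ≠ 0) {m : ℕ}
    (h : ∀ l : List (Fin 3), l.length < m → eval v (iterD l F) = 0) :
    m ≤ mult F (Projectivization.mk ℂ v hv) := by
  obtain ⟨l₀, hl₀⟩ := exists_iterD_ne_zero (Projectivization.mk ℂ v hv).rep d F hF h0
  refine le_csInf ⟨l₀.length, l₀, rfl, hl₀⟩ ?_
  rintro k ⟨l, rfl, hl⟩
  by_contra hlt
  obtain ⟨a, ha⟩ := Projectivization.exists_smul_eq_mk_rep ℂ v hv
  obtain ⟨e, he⟩ := iterD_isHomogeneous hF l
  rw [← ha, Units.smul_def, eval_smul_of_isHomogeneous he, h l (by omega), mul_zero] at hl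
  exact hl rfl

end Pool.Agent.Lib.MP_81ecef_ag
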