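import Mathlib
import Pool.Agent.Lib.MP_81ecef_ag.Finite

/-! Points with two or three pairwise transversal branches have multiplicity at least two or
three. -/

namespace Pool.Agent.Lib.MP_81ecef_ag

open MvPolynomial

theorem hasDerivAt_eval {c : ℂ → Fin 3 → ℂ} {c' : Fin 3 → ℂ} {τ : ℂ}
    (h : ∀ i, HasDerivAt (fun s => c s i) (c' i) τ) (F : MvPolynomial (Fin 3) ℂ) :
    HasDerivAt (fun s => eval (c s) F) (∑ i, eval (c τ) (pderiv i F) * c' i) τ := by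
  induction F using MvPolynomial.induction_on with
  | C a =>
    simp only [eval_C, pderiv_C, map_zero, zero_mul, Finset.sum_const_zero]
    exact hasDerivAt_const _ _
  | add p q hp hq =>
    simp only [map_add, add_mul, Finset.sum_add_distrib]
    exact hp.add hq
  | mul_X p j hp =>
    simp only [map_mul, eval_X]
    refine (hp.mul (h j)).congr_deriv ?_
    simp only [pderiv_mul, map_add, map_mul, eval_X, add_mul, Finset.sum_add_distrib,
      Finset.sum_mul]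
    congr 1
    · exact Finset.sum_congr rfl fun i _ => by ring
    · rw [Finset.sum_eq_single j]
      · simp
      · intro i _ hi
        rw [pderiv_X_of_ne hi.symm]
        simp
      · simp

theorem pderiv_comm (i j : Fin 3) (F : MvPolynomial (Fin 3) ℂ) :
    pderiv i (pderiv j F) = pderiv j (pderiv i F) := by
  induction F using MvPolynomial.induction_on with
  | C a => simp
  | add p q hp hq => simp only [map_add, hp, hq]
  | mul_X p k hp =>
    have h1 : ∀ a b : Fin 3, pderiv a (pderiv b (X k : MvPolynomial (Fin 3) ℂ)) = 0 := by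
      intro a b
      by_cases hb : k = b
      · rw [hb, pderiv_X_self, pderiv_one]
      · rw [pderiv_X_of_ne hb, map_zero]
    simp only [pderiv_mul, map_add, hp, h1]
    ring

/-- The first and second order conditions that a branch with tangent vector `(a, b)` imposes. -/
def Tang (F : MvPolynomial (Fin 3) ℂ) (v : Fin 3 → ℂ) (a b : ℂ) : Prop :=
  eval v (pderiv 0 F) * a + eval v (pderiv 1 F) * b = 0 ∧
    (eval v (pderiv 0 F) = 0 → eval v (pderiv 1 F) = 0 →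
      eval v (pderiv 0 (pderiv 0 F)) * a ^ 2 + 2 * eval v (pderiv 0 (pderiv 1 F)) * (a * b) +
        eval v (pderiv 1 (pderiv 1 F)) * b ^ 2 = 0)

theorem tang_of_param {F : MvPolynomial (Fin 3) ℂ} {x y x' y' x'' y'' : ℂ → ℂ}
    (hx : ∀ s, HasDerivAt x (x' s) s) (hy : ∀ s, HasDerivAt y (y' s) s)
    (hx' : ∀ s, HasDerivAt x' (x'' s) s) (hy' : ∀ s, HasDerivAt y' (y'' s) s)
    (hF : ∀ s, eval ![x s, y s, 1] F = 0) (τ : ℂ) :
    Tang F ![x τ, y τ, 1] (x' τ) (y' τ) := by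
  have hc : ∀ (s : ℂ) (i : Fin 3), HasDerivAt (fun s => (![x s, y s, 1] : Fin 3 → ℂ) i)
      ((![x' s, y' s, 0] : Fin 3 → ℂ) i) s := by
    intro s i
    fin_cases i
    · exact hx s
    · exact hy s
    · exact hasDerivAt_const s (1 : ℂ)
  have hD : ∀ (G : MvPolynomial (Fin 3) ℂ) (s : ℂ), HasDerivAt (fun s => eval ![x s, y s, 1] G)
      (eval ![x s, y s, 1] (pderiv 0 G) * x' s + eval ![x s, y s, 1] (pderiv 1 G) * y' s) s := by
    intro G s
    refine (hasDerivAt_eval (hc s) G).congr_deriv ?_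
    simp [Fin.sum_univ_three]
  have h1 : ∀ s, eval ![x s, y s, 1] (pderiv 0 F) * x' s +
      eval ![x s, y s, 1] (pderiv 1 F) * y' s = 0 := by
    intro s
    have h := hD F s
    simp only [hF] at h
    exact h.unique (hasDerivAt_const s (0 : ℂ))
  refine ⟨h1 τ, fun h2 h3 => ?_⟩
  have h4 := ((hD (pderiv 0 F) τ).mul (hx' τ)).add ((hD (pderiv 1 F) τ).mul (hy' τ))
  have h5 : ((fun s => eval ![x s, y s, 1] (pderiv 0 F)) * x' +
      (fun s => eval ![x s, y s, 1] (pderiv 1 F)) * y') = fun _ => (0 : ℂ) := funext h1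
  rw [h5] at h4
  have h6 := h4.unique (hasDerivAt_const τ (0 : ℂ))
  rw [h2, h3, pderiv_comm 1 0 F] at h6
  linear_combination h6

theorem euler {F : MvPolynomial (Fin 3) ℂ} {d : ℕ} (hF : F.IsHomogeneous d) (x y : ℂ)
    (h : eval ![x, y, 1] F = 0) (h0 : eval ![x, y, 1] (pderiv 0 F) = 0)
    (h1 : eval ![x, y, 1] (pderiv 1 F) = 0) : eval ![x, y, 1] (pderiv 2 F) = 0 := by
  have := congrArg (eval ![x, y, 1]) hF.sum_X_mul_pderiv
  simpa [Fin.sum_univ_three, h, h0, h1] using this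

theorem grad_eq_zero {F : MvPolynomial (Fin 3) ℂ} {d : ℕ} (hF : F.IsHomogeneous d) {x y : ℂ}
    (h : eval ![x, y, 1] F = 0) {a₁ b₁ a₂ b₂ : ℂ} (t₁ : Tang F ![x, y, 1] a₁ b₁)
    (t₂ : Tang F ![x, y, 1] a₂ b₂) (hdet : a₁ * b₂ - a₂ * b₁ ≠ 0) (i : Fin 3) :
    eval ![x, y, 1] (pderiv i F) = 0 := by
  have h0 : eval ![x, y, 1] (pderiv 0 F) = 0 :=
    (mul_eq_zero.1 (by linear_combination b₂ * t₁.1 - b₁ * t₂.1)).resolve_right hdet
  have h1 : eval ![x, y, 1] (pderiv 1 F) = 0 :=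
    (mul_eq_zero.1 (by linear_combination a₁ * t₂.1 - a₂ * t₁.1)).resolve_right hdet
  fin_cases i
  · exact h0
  · exact h1
  · exact euler hF x y h h0 h1

theorem vec_ne_zero (x y : ℂ) : (![x, y, 1] : Fin 3 → ℂ) ≠ 0 := fun h => by
  simpa using congrFun h 2

theorem two_le_mult {F : MvPolynomial (Fin 3) ℂ} {d : ℕ} (hF : F.IsHomogeneous d) (hF0 : F ≠ 0)
    {x y : ℂ} (h : eval ![x, y, 1] F = 0) {a₁ b₁ a₂ b₂ : ℂ} (t₁ : Tang F ![x, y, 1] a₁ b₁)
    (t₂ : Tang F ![x, y, 1] a₂ b₂) (hdet : a₁ * b₂ - a₂ * b₁ ≠ 0) :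
    2 ≤ mult F (Projectivization.mk ℂ ![x, y, 1] (vec_ne_zero x y)) := by
  refine le_mult hF hF0 _ fun l hl => ?_
  match l, hl with
  | [], _ => exact h
  | [i], _ => exact grad_eq_zero hF h t₁ t₂ hdet i

theorem three_le_mult {F : MvPolynomial (Fin 3) ℂ} {d : ℕ} (hF : F.IsHomogeneous d) (hF0 : F ≠ 0)
    {x y : ℂ} (h : eval ![x, y, 1] F = 0) {a₁ b₁ a₂ b₂ a₃ b₃ : ℂ} (t₁ : Tang F ![x, y, 1] a₁ b₁)
    (t₂ : Tang F ![x, y, 1] a₂ b₂) (t₃ : Tang F ![x, y, 1] a₃ b₃)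
    (h₁₂ : a₁ * b₂ - a₂ * b₁ ≠ 0) (h₁₃ : a₁ * b₃ - a₃ * b₁ ≠ 0) (h₂₃ : a₂ * b₃ - a₃ * b₂ ≠ 0) :
    3 ≤ mult F (Projectivization.mk ℂ ![x, y, 1] (vec_ne_zero x y)) := by
  have hg := grad_eq_zero hF h t₁ t₂ h₁₂
  have q₁ := t₁.2 (hg 0) (hg 1)
  have q₂ := t₂.2 (hg 0) (hg 1)
  have q₃ := t₃.2 (hg 0) (hg 1)
  have hD := mul_ne_zero (mul_ne_zero h₁₂ h₁₃) h₂₃
  have h00 : eval ![x, y, 1] (pderiv 0 (pderiv 0 F)) = 0 :=
    (mul_eq_zero.1 (by
      linear_combination (b₂ * b₃ * (a₂ * b₃ - a₃ * b₂)) * q₁ - (b₁ * b₃ * (a₁ * b₃ - a₃ * b₁)) * q₂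
        + (b₁ * b₂ * (a₁ * b₂ - a₂ * b₁)) * q₃)).resolve_right hD
  have h11 : eval ![x, y, 1] (pderiv 1 (pderiv 1 F)) = 0 :=
    (mul_eq_zero.1 (by
      linear_combination (a₂ * a₃ * (a₂ * b₃ - a₃ * b₂)) * q₁ - (a₁ * a₃ * (a₁ * b₃ - a₃ * b₁)) * q₂
        + (a₁ * a₂ * (a₁ * b₂ - a₂ * b₁)) * q₃)).resolve_right hD
  have h01 : eval ![x, y, 1] (pderiv 0 (pderiv 1 F)) = 0 :=
    (mul_eq_zero.1 (by
      linear_combination (-(1 / 2 : ℂ)) * (((a₂ * b₃ + a₃ * b₂) * (a₂ * b₃ - a₃ * b₂)) * q₁ -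
        ((a₁ * b₃ + a₃ * b₁) * (a₁ * b₃ - a₃ * b₁)) * q₂
        + ((a₁ * b₂ + a₂ * b₁) * (a₁ * b₂ - a₂ * b₁)) * q₃))).resolve_right hD
  have h10 : eval ![x, y, 1] (pderiv 1 (pderiv 0 F)) = 0 := by rw [pderiv_comm, h01]
  have h20 := euler hF.pderiv x y (hg 0) h00 h10
  have h21 := euler hF.pderiv x y (hg 1) h01 h11
  have h02 : eval ![x, y, 1] (pderiv 0 (pderiv 2 F)) = 0 := by rw [pderiv_comm, h20]
  have h12 : eval ![x, y, 1] (pderiv 1 (pderiv 2 F)) = 0 := by rw [pderiv_comm, h21]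
  have h22 := euler hF.pderiv x y (hg 2) h02 h12
  refine le_mult hF hF0 _ fun l hl => ?_
  match l, hl with
  | [], _ => exact h
  | [i], _ => exact hg i
  | [i, j], _ =>
    change eval _ (pderiv i (pderiv j F)) = 0
    fin_cases i <;> fin_cases j
    exacts [h00, h01, h02, h10, h11, h12, h20, h21, h22]

end Pool.Agent.Lib.MP_81ecef_ag
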