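import Mathlib

/-! Implicit equations of rational plane curves: degree bound and irreducibility. -/

namespace Pool.Agent.Lib.MP_81ecef_ag

open MvPolynomial

/-- Moving lines: a rational curve of degree `N` lies on a curve of degree `N`. -/
theorem exists_implicit {N : ℕ} (hN : 0 < N) (P Q R : Polynomial ℂ) (hP : P.natDegree ≤ N)
    (hR : R.natDegree ≤ N) (hQ : Q.Monic) (hQN : Q.natDegree = N) (hc : IsCoprime P Q) :
    ∃ F : MvPolynomial (Fin 3) ℂ, F.IsHomogeneous N ∧ eval ![0, 0, 1] F = 1 ∧
      ∀ t : ℂ, eval ![P.eval t, Q.eval t, R.eval t] F = 0 := by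
  classical
  have hsyz : ∀ i : Fin N, ∃ A B : Polynomial ℂ, A.natDegree < N ∧ B.natDegree < N ∧
      A * P + B * Q + Polynomial.X ^ (i : ℕ) * R = 0 := by
    intro i
    obtain ⟨a, b, hab⟩ := hc
    set W : Polynomial ℂ := -(Polynomial.X ^ (i : ℕ) * R) with hW
    have hWd : W.natDegree ≤ 2 * N - 1 := by
      rw [hW, Polynomial.natDegree_neg]
      refine Polynomial.natDegree_mul_le.trans ?_
      rw [Polynomial.natDegree_X_pow]
      have := i.2
      omega
    have hQ1 : Q ≠ 1 := by
      intro h
      rw [h, Polynomial.natDegree_one] at hQN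
      omega
    have hA : ((W * a) %ₘ Q).natDegree < N := by
      rw [← hQN]
      exact Polynomial.natDegree_modByMonic_lt _ hQ hQ1
    have he : ((W * a) %ₘ Q) * P + (W * b + ((W * a) /ₘ Q) * P) * Q = W := by
      have h1 := Polynomial.modByMonic_add_div (W * a) Q
      linear_combination P * h1 + W * hab
    refine ⟨(W * a) %ₘ Q, W * b + ((W * a) /ₘ Q) * P, hA, ?_, by rw [he, hW]; ring⟩
    by_cases hB : W * b + ((W * a) /ₘ Q) * P = 0
    · rw [hB, Polynomial.natDegree_zero]
      exact hN
    · have h1 : (W * b + ((W * a) /ₘ Q) * P) * Q = W - ((W * a) %ₘ Q) * P := by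
        linear_combination he
      have h2 := congrArg Polynomial.natDegree h1
      rw [Polynomial.natDegree_mul hB hQ.ne_zero, hQN] at h2
      have h3 : (W - ((W * a) %ₘ Q) * P).natDegree ≤ 2 * N - 1 := by
        refine (Polynomial.natDegree_sub_le _ _).trans (max_le hWd ?_)
        refine Polynomial.natDegree_mul_le.trans ?_
        omega
      omega
  choose A B hA hB hAB using hsyz
  let M : Matrix (Fin N) (Fin N) (MvPolynomial (Fin 3) ℂ) := Matrix.of fun i j =>
    C ((A i).coeff j) * X 0 + C ((B i).coeff j) * X 1 + C (if i = j then 1 else 0) * X 2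
  have hM : ∀ (v : Fin 3 → ℂ) (i j : Fin N),
      (eval v : MvPolynomial (Fin 3) ℂ →+* ℂ).mapMatrix M i j =
        (A i).coeff j * v 0 + (B i).coeff j * v 1 + (if i = j then 1 else 0) * v 2 := by
    intro v i j
    simp only [RingHom.mapMatrix_apply, Matrix.map_apply, M, Matrix.of_apply, map_add, map_mul,
      eval_C, eval_X]
  refine ⟨M.det, ?_, ?_, ?_⟩
  · rw [Matrix.det_apply']
    refine IsHomogeneous.sum _ _ _ fun σ _ => ?_
    have h1 : (∏ i, M (σ i) i).IsHomogeneous (∑ _i : Fin N, 1) := by
      refine IsHomogeneous.prod _ _ _ fun i _ => ?_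
      exact ((isHomogeneous_C_mul_X _ _).add (isHomogeneous_C_mul_X _ _)).add
        (isHomogeneous_C_mul_X _ _)
    rw [Finset.sum_const, Finset.card_univ, Fintype.card_fin, smul_eq_mul, mul_one] at h1
    have h2 : (((Equiv.Perm.sign σ : ℤˣ) : ℤ) : MvPolynomial (Fin 3) ℂ) =
        C (((Equiv.Perm.sign σ : ℤˣ) : ℤ) : ℂ) := by simp
    rw [h2]
    exact h1.C_mul _
  · rw [RingHom.map_det]
    have : (eval ![0, 0, 1] : MvPolynomial (Fin 3) ℂ →+* ℂ).mapMatrix M = 1 := by
      ext i j
      rw [hM]
      simp [Matrix.one_apply]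
    rw [this, Matrix.det_one]
  · intro t
    rw [RingHom.map_det, ← Matrix.exists_mulVec_eq_zero_iff]
    refine ⟨fun j => t ^ (j : ℕ), ?_, ?_⟩
    · intro h
      have := congrFun h ⟨0, hN⟩
      simp at this
    · funext i
      have h1 := congrArg (Polynomial.eval t) (hAB i)
      simp only [Polynomial.eval_add, Polynomial.eval_mul, Polynomial.eval_pow, Polynomial.eval_X,
        Polynomial.eval_zero] at h1
      rw [Polynomial.eval_eq_sum_range' (hA i), Polynomial.eval_eq_sum_range' (hB i),
        Finset.sum_range, Finset.sum_range] at h1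
      simp only [Matrix.mulVec, dotProduct, hM, Matrix.cons_val_zero, Matrix.cons_val_one,
        Matrix.cons_val, Pi.zero_apply, add_mul, Finset.sum_add_distrib, ite_mul, one_mul,
        zero_mul, Finset.sum_ite_eq, Finset.mem_univ, if_true]
      rw [Finset.sum_mul, Finset.sum_mul] at h1
      have e1 : ∑ j : Fin N, (A i).coeff j * P.eval t * t ^ (j : ℕ) =
          ∑ j : Fin N, (A i).coeff j * t ^ (j : ℕ) * P.eval t :=
        Finset.sum_congr rfl fun j _ => by ring
      have e2 : ∑ j : Fin N, (B i).coeff j * Q.eval t * t ^ (j : ℕ) =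
          ∑ j : Fin N, (B i).coeff j * t ^ (j : ℕ) * Q.eval t :=
        Finset.sum_congr rfl fun j _ => by ring
      rw [e1, e2]
      linear_combination h1

theorem top_component_mul {G₁ G₂ : MvPolynomial (Fin 3) ℂ} :
    homogeneousComponent (G₁.totalDegree + G₂.totalDegree) (G₁ * G₂) =
      homogeneousComponent G₁.totalDegree G₁ * homogeneousComponent G₂.totalDegree G₂ := by
  classical
  conv_lhs => rw [← sum_homogeneousComponent G₁, ← sum_homogeneousComponent G₂]
  rw [Finset.sum_mul_sum]
  simp only [sum_homogeneousComponent, map_sum]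
  have key : ∀ i j : ℕ, homogeneousComponent (G₁.totalDegree + G₂.totalDegree)
      (homogeneousComponent i G₁ * homogeneousComponent j G₂) =
      if G₁.totalDegree + G₂.totalDegree = i + j then
        homogeneousComponent i G₁ * homogeneousComponent j G₂ else 0 := fun i j =>
    homogeneousComponent_of_mem
      ((homogeneousComponent_isHomogeneous i G₁).mul (homogeneousComponent_isHomogeneous j G₂))
  simp only [key]
  rw [Finset.sum_eq_single G₁.totalDegree, Finset.sum_eq_single G₂.totalDegree, if_pos rfl]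
  · intro j hj hne
    rw [if_neg (by omega)]
  · intro h
    simp at h
  · intro i hi hne
    refine Finset.sum_eq_zero fun j hj => ?_
    rw [Finset.mem_range] at hi hj
    rw [if_neg (by omega)]
  · intro h
    simp at h

/-- A prime ideal-like class of polynomials (the kernel of a map to a domain) that contains a
nonzero form of degree `N` contains an irreducible form of degree at most `N`. -/
theorem exists_irreducible {S : Type} [CommRing S] [IsDomain S] [Algebra ℂ S]
    (φ : MvPolynomial (Fin 3) ℂ →ₐ[ℂ] S) {N : ℕ} {F : MvPolynomial (Fin 3) ℂ}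
    (hF : F.IsHomogeneous N) (h0 : F ≠ 0) (hφ : φ F = 0) :
    ∃ (d : ℕ) (G : MvPolynomial (Fin 3) ℂ), d ≤ N ∧ G.IsHomogeneous d ∧ Irreducible G ∧
      φ G = 0 := by
  classical
  have hex : ∃ d : ℕ, ∃ G : MvPolynomial (Fin 3) ℂ, G.IsHomogeneous d ∧ G ≠ 0 ∧ φ G = 0 :=
    ⟨N, F, hF, h0, hφ⟩
  obtain ⟨G, hG, hG0, hφG⟩ := Nat.find_spec hex
  have hmin : ∀ (e : ℕ) (H : MvPolynomial (Fin 3) ℂ), H.IsHomogeneous e → H ≠ 0 → φ H = 0 →
      Nat.find hex ≤ e := fun e H h1 h2 h3 => Nat.find_min' hex ⟨H, h1, h2, h3⟩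
  refine ⟨Nat.find hex, G, hmin N F hF h0 hφ, hG, ⟨?_, ?_⟩, hφG⟩
  · intro hu
    have := hu.map φ
    rw [hφG] at this
    exact not_isUnit_zero this
  · intro G₁ G₂ hmul
    have h1 : G₁ ≠ 0 := by
      rintro rfl
      exact hG0 (by rw [hmul, zero_mul])
    have h2 : G₂ ≠ 0 := by
      rintro rfl
      exact hG0 (by rw [hmul, mul_zero])
    have hd : Nat.find hex = G₁.totalDegree + G₂.totalDegree := by
      rw [← hG.totalDegree hG0, hmul, totalDegree_mul_of_isDomain h1 h2]
    have ht : G = homogeneousComponent G₁.totalDegree G₁ *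
        homogeneousComponent G₂.totalDegree G₂ := by
      rw [← top_component_mul, ← hmul, ← hd, homogeneousComponent_eq_self hG]
    have hunit : ∀ H : MvPolynomial (Fin 3) ℂ, H ≠ 0 → H.totalDegree = 0 → IsUnit H := by
      intro H hH hH0
      rw [totalDegree_eq_zero_iff_eq_C] at hH0
      rw [hH0] at hH ⊢
      refine IsUnit.map C (isUnit_iff_ne_zero.2 ?_)
      intro h
      exact hH (by rw [h, C_0])
    have h3 := hφG
    rw [ht, map_mul, mul_eq_zero] at h3
    rcases h3 with h3 | h3
    · right
      have := hmin _ _ (homogeneousComponent_isHomogeneous _ G₁)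
        (fun h => hG0 (by rw [ht, h, zero_mul])) h3
      exact hunit _ h2 (by omega)
    · left
      have := hmin _ _ (homogeneousComponent_isHomogeneous _ G₂)
        (fun h => hG0 (by rw [ht, h, mul_zero])) h3
      exact hunit _ h1 (by omega)

end Pool.Agent.Lib.MP_81ecef_ag
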