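import Mathlib
import Pool.Agent.Lib.MP_81ecef_ag.Implicit
import Pool.Agent.Lib.MP_81ecef_ag.Branch

/-! The curve `t ↦ (e₁, e₂)` of the elementary symmetric functions of `t ^ m, t, t ^ (-m - 1)`. -/

namespace Pool.Agent.Lib.MP_81ecef_ag

open MvPolynomial

/-- First coordinate. -/
noncomputable def ex (a b c : ℂ) : ℂ := a + b + c

/-- Second coordinate. -/
noncomputable def ey (a b c : ℂ) : ℂ := a⁻¹ + b⁻¹ + c⁻¹

/-- The point of the projective plane attached to the unordered triple `a, b, c`. -/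
noncomputable def pt (a b c : ℂ) : Projectivization ℂ (Fin 3 → ℂ) :=
  Projectivization.mk ℂ ![ex a b c, ey a b c, 1] (vec_ne_zero _ _)

/-- The point of the curve with parameter `t`. -/
noncomputable def cp (m : ℕ) (t : ℂ) : Projectivization ℂ (Fin 3 → ℂ) :=
  pt (t ^ m) t (t ^ (m + 1))⁻¹

/-- `G` vanishes on the curve. -/
def Van (m : ℕ) (G : MvPolynomial (Fin 3) ℂ) : Prop := ∀ t : ℂ, t ≠ 0 →
  eval ![ex (t ^ m) t (t ^ (m + 1))⁻¹, ey (t ^ m) t (t ^ (m + 1))⁻¹, 1] G = 0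

theorem exists_curve {m : ℕ} (hm : 1 ≤ m) : ∃ (d : ℕ) (G : MvPolynomial (Fin 3) ℂ),
    d ≤ 2 * m + 2 ∧ G.IsHomogeneous d ∧ Irreducible G ∧ Van m G := by
  let Xp : Polynomial ℂ := Polynomial.X ^ (2 * m + 1) + Polynomial.X ^ (m + 2) + 1
  let Yp : Polynomial ℂ := Polynomial.X ^ (2 * m + 2) + (Polynomial.X ^ m + Polynomial.X)
  let Zp : Polynomial ℂ := Polynomial.X ^ (m + 1)
  have hX : Xp.natDegree ≤ 2 * m + 1 := by
    refine (Polynomial.natDegree_add_le _ _).trans (max_le ?_ (by simp))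
    refine (Polynomial.natDegree_add_le _ _).trans (max_le ?_ ?_)
    · rw [Polynomial.natDegree_X_pow]
    · rw [Polynomial.natDegree_X_pow]; omega
  have hL : (Polynomial.X ^ m + Polynomial.X - Xp).natDegree ≤ 2 * m + 1 := by
    refine (Polynomial.natDegree_sub_le _ _).trans (max_le ?_ hX)
    refine (Polynomial.natDegree_add_le _ _).trans (max_le ?_ ?_)
    · rw [Polynomial.natDegree_X_pow]; omega
    · rw [Polynomial.natDegree_X]; omega
  have hQ : Yp - Xp = Polynomial.X ^ (2 * m + 2) + (Polynomial.X ^ m + Polynomial.X - Xp) := by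
    simp only [Yp]; ring
  have hlt : (Polynomial.X ^ m + Polynomial.X - Xp).degree < ((2 * m + 2 : ℕ) : WithBot ℕ) :=
    lt_of_le_of_lt Polynomial.degree_le_natDegree (by exact_mod_cast (by omega))
  have hmonic : (Yp - Xp).Monic := by
    rw [hQ]
    exact Polynomial.monic_X_pow_add hlt
  have hdeg : (Yp - Xp).natDegree = 2 * m + 2 := by
    rw [hQ, Polynomial.natDegree_add_eq_left_of_natDegree_lt, Polynomial.natDegree_X_pow]
    rw [Polynomial.natDegree_X_pow]
    omega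
  have hcop : IsCoprime Zp (Yp - Xp) := by
    refine IsCoprime.pow_left ?_
    obtain ⟨k, rfl⟩ := Nat.exists_eq_add_of_le' hm
    refine ⟨Polynomial.X ^ (2 * k + 3) + Polynomial.X ^ k + 1 - Polynomial.X ^ (2 * k + 2) -
      Polynomial.X ^ (k + 2), -1, ?_⟩
    simp only [Xp, Yp]
    ring
  obtain ⟨F, hF, hF1, hFv⟩ := exists_implicit (N := 2 * m + 2) (by omega) Zp (Yp - Xp) Xp
    (by simp only [Zp, Polynomial.natDegree_X_pow]; omega) (by omega) hmonic hdeg hcop
  let L : Fin 3 → MvPolynomial (Fin 3) ℂ := ![X 2, X 1 - X 0, X 0]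
  have hLh : ∀ i, (L i).IsHomogeneous 1 := by
    intro i
    fin_cases i
    · exact isHomogeneous_X _ _
    · exact (isHomogeneous_X _ _).sub (isHomogeneous_X _ _)
    · exact isHomogeneous_X _ _
  have hev : ∀ v : Fin 3 → ℂ, eval v (aeval L F) = eval ![v 2, v 1 - v 0, v 0] F := by
    intro v
    have : (aeval v : MvPolynomial (Fin 3) ℂ →ₐ[ℂ] ℂ).comp (aeval L) =
        aeval ![v 2, v 1 - v 0, v 0] := by
      refine MvPolynomial.algHom_ext fun i => ?_
      fin_cases i <;> simp [L]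
    simpa using DFunLike.congr_fun this F
  let φ : MvPolynomial (Fin 3) ℂ →ₐ[ℂ] Polynomial ℂ := aeval ![Xp, Yp, Zp]
  have hφ : ∀ (G : MvPolynomial (Fin 3) ℂ) (t : ℂ),
      (φ G).eval t = eval ![Xp.eval t, Yp.eval t, Zp.eval t] G := by
    intro G t
    have : (Polynomial.aeval t : Polynomial ℂ →ₐ[ℂ] ℂ).comp φ =
        aeval ![Xp.eval t, Yp.eval t, Zp.eval t] := by
      refine MvPolynomial.algHom_ext fun i => ?_
      fin_cases i <;> simp [φ, Polynomial.coe_aeval_eq_eval]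
    simpa [Polynomial.coe_aeval_eq_eval] using DFunLike.congr_fun this G
  obtain ⟨d, G, hd, hG, hirr, hφG⟩ := exists_irreducible φ (hF.aeval L hLh)
    (by
      intro h
      have := hev ![1, 1, 0]
      rw [h, map_zero] at this
      simp [hF1] at this)
    (by
      refine Polynomial.funext fun t => ?_
      rw [hφ, hev, Polynomial.eval_zero, ← hFv t]
      simp)
  refine ⟨d, G, by omega, hG, hirr, fun t ht => ?_⟩
  have h1 := hφ G t
  rw [hφG, Polynomial.eval_zero] at h1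
  have h2 : (![ex (t ^ m) t (t ^ (m + 1))⁻¹, ey (t ^ m) t (t ^ (m + 1))⁻¹, 1] : Fin 3 → ℂ) =
      (t ^ (m + 1))⁻¹ • ![Xp.eval t, Yp.eval t, Zp.eval t] := by
    funext i
    fin_cases i
    · simp [ex, Xp]
      field_simp
      ring
    · simp [ey, Yp]
      field_simp
      ring
    · simp [Zp]
      field_simp
  rw [h2, eval_smul_of_isHomogeneous hG, ← h1, mul_zero]

/-- First coordinate of the tangent vector. -/
noncomputable def wx (m : ℕ) (a b c : ℂ) : ℂ := m * a + b - (m + 1) * c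

/-- Second coordinate of the tangent vector. -/
noncomputable def wy (m : ℕ) (a b c : ℂ) : ℂ := -(m * a⁻¹ + b⁻¹ - (m + 1) * c⁻¹)

theorem tang_curve {m : ℕ} {G : MvPolynomial (Fin 3) ℂ} (hG : Van m G) {t a c : ℂ} (ht : t ≠ 0)
    (ha : t ^ m = a) (hc : (t ^ (m + 1))⁻¹ = c) :
    Tang G ![ex a t c, ey a t c, 1] (wx m a t c) (wy m a t c) := by
  have hexp : ∀ w s : ℂ, HasDerivAt (fun s => Complex.exp (w * s)) (w * Complex.exp (w * s)) s := by
    intro w s
    simpa [mul_comm] using ((hasDerivAt_id s).const_mul w).cexp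
  have e1 : ∀ s : ℂ, Complex.exp (m * s) = Complex.exp s ^ m := fun s => Complex.exp_nat_mul s m
  have e2 : ∀ s : ℂ, Complex.exp (1 * s) = Complex.exp s := fun s => by rw [one_mul]
  have e3 : ∀ s : ℂ, Complex.exp (-(m + 1) * s) = (Complex.exp s ^ (m + 1))⁻¹ := fun s => by
    rw [neg_mul, Complex.exp_neg, ← Complex.exp_nat_mul]
    push_cast
    rfl
  have e4 : ∀ s : ℂ, Complex.exp (-m * s) = (Complex.exp s ^ m)⁻¹ := fun s => by
    rw [neg_mul, Complex.exp_neg, e1]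
  have e5 : ∀ s : ℂ, Complex.exp (-1 * s) = (Complex.exp s)⁻¹ := fun s => by
    rw [neg_mul, Complex.exp_neg, e2]
  have e6 : ∀ s : ℂ, Complex.exp ((m + 1) * s) = ((Complex.exp s ^ (m + 1))⁻¹)⁻¹ := fun s => by
    rw [inv_inv, ← Complex.exp_nat_mul]
    push_cast
    rfl
  have key := tang_of_param (F := G)
    (fun s => ((hexp m s).add (hexp 1 s)).add (hexp (-(m + 1)) s))
    (fun s => ((hexp (-m) s).add (hexp (-1) s)).add (hexp (m + 1) s))
    (fun s => (((hexp m s).const_mul (m : ℂ)).add ((hexp 1 s).const_mul (1 : ℂ))).add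
      ((hexp (-(m + 1)) s).const_mul (-(m + 1) : ℂ)))
    (fun s => (((hexp (-m) s).const_mul (-m : ℂ)).add ((hexp (-1) s).const_mul (-1 : ℂ))).add
      ((hexp (m + 1) s).const_mul (m + 1 : ℂ)))
    (fun s => by
      simp only [Pi.add_apply, e1, e2, e3, e4, e5, e6]
      exact hG _ (Complex.exp_ne_zero s)) (Complex.log t)
  simp only [Pi.add_apply, e1, e2, e3, e4, e5, e6, Complex.exp_log ht, ha, hc] at key
  have f1 : wx m a t c = m * a + 1 * t + -(m + 1) * c := by unfold wx; ring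
  have f2 : wy m a t c = -m * a⁻¹ + -1 * t⁻¹ + (m + 1) * c⁻¹ := by unfold wy; ring
  rw [f1, f2]
  exact key

theorem root_of_cp_eq {m : ℕ} {s t : ℂ} (hs : s ≠ 0) (ht : t ≠ 0) (h : cp m s = cp m t) :
    s = t ^ m ∨ s = t ∨ s = (t ^ (m + 1))⁻¹ := by
  unfold cp pt at h
  rw [Projectivization.mk_eq_mk_iff'] at h
  obtain ⟨a, ha⟩ := h
  have h2 := congrFun ha 2
  simp only [Pi.smul_apply, Matrix.cons_val, smul_eq_mul, mul_one] at h2
  rw [h2, one_smul] at ha
  have h0 := congrFun ha 0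
  have h1 := congrFun ha 1
  simp only [Matrix.cons_val_zero, Matrix.cons_val_one] at h0 h1
  have cubic : ∀ u z : ℂ, u ≠ 0 → (z - u ^ m) * (z - u) * (z - (u ^ (m + 1))⁻¹) =
      z ^ 3 - ex (u ^ m) u (u ^ (m + 1))⁻¹ * z ^ 2 + ey (u ^ m) u (u ^ (m + 1))⁻¹ * z - 1 := by
    intro u z hu
    unfold ex ey
    field_simp
    ring
  have h3 : (s - t ^ m) * (s - t) * (s - (t ^ (m + 1))⁻¹) = 0 := by
    rw [cubic t s ht, h0, h1, ← cubic s s hs, sub_self, mul_zero, zero_mul]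
  simpa only [mul_eq_zero, sub_eq_zero, or_assoc] using h3

/-- The determinant of two tangent vectors. -/
theorem det_ne_zero {a b c w₁ w₂ v₁ v₂ : ℂ} (ha : a ≠ 0) (hb : b ≠ 0) (hc : c ≠ 0) (hab : a ≠ b)
    (hac : a ≠ c) (hbc : b ≠ c) (hw : w₁ * v₂ - v₁ * w₂ ≠ 0) :
    (w₁ * a + w₂ * b - (w₁ + w₂) * c) * -(v₁ * a⁻¹ + v₂ * b⁻¹ - (v₁ + v₂) * c⁻¹) -
      (v₁ * a + v₂ * b - (v₁ + v₂) * c) * -(w₁ * a⁻¹ + w₂ * b⁻¹ - (w₁ + w₂) * c⁻¹) ≠ 0 := by
  have : (w₁ * a + w₂ * b - (w₁ + w₂) * c) * -(v₁ * a⁻¹ + v₂ * b⁻¹ - (v₁ + v₂) * c⁻¹) -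
      (v₁ * a + v₂ * b - (v₁ + v₂) * c) * -(w₁ * a⁻¹ + w₂ * b⁻¹ - (w₁ + w₂) * c⁻¹) =
      (w₁ * v₂ - v₁ * w₂) * ((a - b) * (a - c) * (b - c)) / (a * b * c) := by
    field_simp
    ring
  rw [this]
  exact div_ne_zero (mul_ne_zero hw (mul_ne_zero (mul_ne_zero (sub_ne_zero.2 hab)
    (sub_ne_zero.2 hac)) (sub_ne_zero.2 hbc))) (mul_ne_zero (mul_ne_zero ha hb) hc)

section

variable {m d : ℕ} {G : MvPolynomial (Fin 3) ℂ} (hG : G.IsHomogeneous d) (hG0 : G ≠ 0)
  (hV : Van m G) {t : ℂ} (ht : t ≠ 0) (hab : t ^ m ≠ t) (hac : t ^ m ≠ (t ^ (m + 1))⁻¹)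
  (hbc : t ≠ (t ^ (m + 1))⁻¹)

include hG hG0 hV ht hab hac hbc

theorem triple_point (h : t ^ (m * m + m + 1) = 1) : 3 ≤ mult G (cp m t) := by
  have ha : t ^ m ≠ 0 := pow_ne_zero _ ht
  have hc : (t ^ (m + 1))⁻¹ ≠ 0 := inv_ne_zero (pow_ne_zero _ ht)
  have t₁ := tang_curve hV ht rfl rfl
  have t₂ := tang_curve hV ha (a := (t ^ (m + 1))⁻¹) (c := t)
    (by field_simp; rw [← h]; ring) (by field_simp; rw [← h]; ring)
  have t₃ := tang_curve hV hc (a := t) (c := t ^ m)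
    (by rw [inv_pow]; field_simp; rw [← h]; ring)
    (by rw [inv_pow, inv_inv, ← mul_one (t ^ m), ← h]; ring)
  have hv := hV t ht
  unfold cp pt
  generalize t ^ m = a at *
  generalize (t ^ (m + 1))⁻¹ = c at *
  rw [show ex c a t = ex a t c by unfold ex; ring, show ey c a t = ey a t c by unfold ey; ring]
    at t₂
  rw [show ex t c a = ex a t c by unfold ex; ring, show ey t c a = ey a t c by unfold ey; ring]
    at t₃
  have hq : ((m : ℂ) * m + m + 1) ≠ 0 := by exact_mod_cast (by omega : m * m + m + 1 ≠ 0)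
  refine three_le_mult hG hG0 hv t₁ t₂ t₃ ?_ ?_ ?_
  · have := det_ne_zero (w₁ := m) (w₂ := 1) (v₁ := 1) (v₂ := -(m + 1)) ha ht hc hab hac hbc
      (fun h => hq (by linear_combination -h))
    exact fun h => this (by unfold wx wy at h; linear_combination h)
  · have := det_ne_zero (w₁ := m) (w₂ := 1) (v₁ := -(m + 1)) (v₂ := m) ha ht hc hab hac hbc
      (fun h => hq (by linear_combination h))
    exact fun h => this (by unfold wx wy at h; linear_combination h)
  · have := det_ne_zero (w₁ := 1) (w₂ := -(m + 1)) (v₁ := -(m + 1)) (v₂ := m) ha ht hc hab hac hbc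
      (fun h => hq (by linear_combination -h))
    exact fun h => this (by unfold wx wy at h; linear_combination h)

theorem node_one (hm : 2 ≤ m) (h : t ^ (m * m) = t) : 2 ≤ mult G (cp m t) := by
  have ha : t ^ m ≠ 0 := pow_ne_zero _ ht
  have hc : (t ^ (m + 1))⁻¹ ≠ 0 := inv_ne_zero (pow_ne_zero _ ht)
  have t₁ := tang_curve hV ht rfl rfl
  have t₂ := tang_curve hV ha (a := t) (c := (t ^ (m + 1))⁻¹)
    (by rw [← pow_mul, h]) (by rw [pow_succ (t ^ m), ← pow_mul, h]; ring)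
  have hv := hV t ht
  unfold cp pt
  generalize t ^ m = a at *
  generalize (t ^ (m + 1))⁻¹ = c at *
  rw [show ex t a c = ex a t c by unfold ex; ring, show ey t a c = ey a t c by unfold ey; ring]
    at t₂
  have hq : ((m : ℂ) * m) ≠ 1 := by exact_mod_cast (by nlinarith : m * m ≠ 1)
  refine two_le_mult hG hG0 hv t₁ t₂ ?_
  have := det_ne_zero (w₁ := m) (w₂ := 1) (v₁ := 1) (v₂ := m) ha ht hc hab hac hbc
    (fun h => hq (by linear_combination h))
  exact fun h => this (by unfold wx wy at h; linear_combination h)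

theorem node_two (hm : 2 ≤ m) (h : t ^ (m * (m + 2)) = 1) : 2 ≤ mult G (cp m t) := by
  have ha : t ^ m ≠ 0 := pow_ne_zero _ ht
  have hc : (t ^ (m + 1))⁻¹ ≠ 0 := inv_ne_zero (pow_ne_zero _ ht)
  have t₁ := tang_curve hV ht rfl rfl
  have t₂ := tang_curve hV hc (a := t ^ m) (c := t)
    (by rw [inv_pow]; field_simp; rw [← h]; ring)
    (by rw [inv_pow, inv_inv]; conv_rhs => rw [← mul_one t, ← h]
        ring)
  have hv := hV t ht
  unfold cp pt
  generalize t ^ m = a at *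
  generalize (t ^ (m + 1))⁻¹ = c at *
  rw [show ex a c t = ex a t c by unfold ex; ring, show ey a c t = ey a t c by unfold ey; ring]
    at t₂
  have hq : ((m : ℂ) * (m + 2)) ≠ 0 := by exact_mod_cast (by nlinarith : m * (m + 2) ≠ 0)
  refine two_le_mult hG hG0 hv t₁ t₂ ?_
  have := det_ne_zero (w₁ := m) (w₂ := 1) (v₁ := m) (v₂ := -(m + 1)) ha ht hc hab hac hbc
    (fun h => hq (by linear_combination -h))
  exact fun h => this (by unfold wx wy at h; linear_combination h)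

end

end Pool.Agent.Lib.MP_81ecef_ag
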