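import Mathlib
import Pool.Agent.Lib.MP_81ecef_ag.Curve

/-! Counting the triple points and the nodes of the curve. -/

namespace Pool.Agent.Lib.MP_81ecef_ag

open MvPolynomial

theorem cop_one {a b : ℕ} (u v : ℤ) (h : u * a + v * b = 1) : Nat.Coprime a b :=
  Nat.isCoprime_iff_coprime.1 ⟨u, v, h⟩

theorem cop_three {a b : ℕ} (u v : ℤ) (h : u * a + v * b = 3) (h3 : ¬ 3 ∣ b) :
    Nat.Coprime a b := by
  have h1 : ((Nat.gcd a b : ℕ) : ℤ) ∣ ((3 : ℕ) : ℤ) := by
    rw [Nat.cast_ofNat, ← h]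
    exact dvd_add (Dvd.dvd.mul_left (Int.natCast_dvd_natCast.2 (Nat.gcd_dvd_left a b)) u)
      (Dvd.dvd.mul_left (Int.natCast_dvd_natCast.2 (Nat.gcd_dvd_right a b)) v)
  rcases (Nat.dvd_prime Nat.prime_three).1 (Int.natCast_dvd_natCast.1 h1) with h2 | h2
  · exact h2
  · exact absurd (h2 ▸ Nat.gcd_dvd_right a b) h3

theorem eq_one_of_cop {t : ℂ} {a b : ℕ} (h : Nat.Coprime a b) (ha : t ^ a = 1) (hb : t ^ b = 1) :
    t = 1 := by
  have := pow_gcd_eq_one.2 ⟨ha, hb⟩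
  rwa [h, pow_one] at this

theorem ne_zero_of_pow {t : ℂ} {a : ℕ} (h : 0 < a) (ha : t ^ a = 1) : t ≠ 0 := by
  rintro rfl
  rw [zero_pow h.ne'] at ha
  exact zero_ne_one ha

theorem pow_eq_one_of_cp_eq {m N : ℕ} {s t : ℂ} (hs : s ≠ 0) (ht : t ≠ 0) (h : cp m s = cp m t)
    (hN : t ^ N = 1) : s ^ N = 1 := by
  rcases root_of_cp_eq hs ht h with rfl | rfl | rfl
  · rw [← pow_mul, mul_comm, pow_mul, hN, one_pow]
  · exact hN
  · rw [inv_pow, ← pow_mul, mul_comm, pow_mul, hN, one_pow, inv_one]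

theorem card_roots {N : ℕ} (h : 0 < N) : (Polynomial.nthRootsFinset N (1 : ℂ)).card = N :=
  (Complex.isPrimitiveRoot_exp N h.ne').card_nthRootsFinset

theorem exists_points {p d : ℕ} (hp : p % 3 = 1) {G : MvPolynomial (Fin 3) ℂ}
    (hG : G.IsHomogeneous d) (hG0 : G ≠ 0) (hV : Van (p + 1) G) :
    ∃ T N : Finset (Projectivization ℂ (Fin 3 → ℂ)), Disjoint T N ∧
      (∀ x ∈ T, 3 ≤ mult G x) ∧ (∀ x ∈ N, 2 ≤ mult G x) ∧
      (p + 1) * (p + 2) ≤ 3 * T.card ∧ p * (p + 2) ≤ N.card := by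
  classical
  set A := (p + 1) * (p + 1) + (p + 1) + 1 with hA
  set B := (p + 2) * p with hB
  set D := (p + 1) * (p + 1 + 2) with hD
  have hp0 : 0 < p := by omega
  have hA0 : 0 < A := by positivity
  have hB0 : 0 < B := by positivity
  have hD0 : 0 < D := by positivity
  have cA0 : Nat.Coprime A p := cop_three 1 (-(p + 3)) (by rw [hA]; push_cast; ring) (by omega)
  have cA1 : Nat.Coprime A (p + 1) := cop_one 1 (-(p + 2)) (by rw [hA]; push_cast; ring)
  have cA2 : Nat.Coprime A (p + 2) := cop_one 1 (-(p + 1)) (by rw [hA]; push_cast; ring)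
  have cA3 : Nat.Coprime A (p + 3) := cop_three 1 (-p) (by rw [hA]; push_cast; ring) (by omega)
  have cA4 : Nat.Coprime A (2 * p + 3) :=
    cop_three 4 (-(2 * p + 3)) (by rw [hA]; push_cast; ring) (by omega)
  have c01 : Nat.Coprime p (p + 1) := cop_one (-1) 1 (by push_cast; ring)
  have c03 : Nat.Coprime p (p + 3) := cop_three (-1) 1 (by push_cast; ring) (by omega)
  have c21 : Nat.Coprime (p + 2) (p + 1) := cop_one 1 (-1) (by push_cast; ring)
  have c23 : Nat.Coprime (p + 2) (p + 3) := cop_one (-1) 1 (by push_cast; ring)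
  have c04 : Nat.Coprime p (2 * p + 3) := cop_three (-2) 1 (by push_cast; ring) (by omega)
  have c24 : Nat.Coprime (p + 2) (2 * p + 3) := cop_one 2 (-1) (by push_cast; ring)
  have c14 : Nat.Coprime (p + 1) (2 * p + 3) := cop_one (-2) 1 (by push_cast; ring)
  have c34 : Nat.Coprime (p + 3) (2 * p + 3) := cop_three 2 (-1) (by push_cast; ring) (by omega)
  have cAB : Nat.Coprime A B := cA2.mul_right cA0
  have cAD : Nat.Coprime A D := cA1.mul_right cA3
  have cB3 : Nat.Coprime B (p + 3) := c23.mul_left c03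
  have cBD : Nat.Coprime B D := (c21.mul_left c01).mul_right cB3
  have cB4 : Nat.Coprime B (2 * p + 3) := c24.mul_left c04
  have cD0 : Nat.Coprime D p := c01.symm.mul_left c03.symm
  have cD4 : Nat.Coprime D (2 * p + 3) := c14.mul_left c34
  have d1 : ∀ t : ℂ, t ≠ 0 → t ^ (p + 1) = t → t ^ p = 1 := fun t ht h =>
    mul_right_cancel₀ ht (by rw [← pow_succ, h, one_mul])
  have d2 : ∀ t : ℂ, t ≠ 0 → t ^ (p + 1) = (t ^ (p + 1 + 1))⁻¹ → t ^ (2 * p + 3) = 1 :=
    fun t ht h => by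
      rw [show 2 * p + 3 = p + 1 + (p + 1 + 1) by ring, pow_add, h,
        inv_mul_cancel₀ (pow_ne_zero _ ht)]
  have d3 : ∀ t : ℂ, t ≠ 0 → t = (t ^ (p + 1 + 1))⁻¹ → t ^ (p + 3) = 1 := fun t ht h => by
    rw [show p + 3 = p + 1 + 1 + 1 by ring, pow_succ]
    nth_rewrite 2 [h]
    exact mul_inv_cancel₀ (pow_ne_zero _ ht)
  let T₀ := Polynomial.nthRootsFinset A (1 : ℂ) \ {1}
  let N₁ := Polynomial.nthRootsFinset B (1 : ℂ) \ Polynomial.nthRootsFinset p (1 : ℂ)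
  let N₂ := Polynomial.nthRootsFinset D (1 : ℂ) \ Polynomial.nthRootsFinset (p + 3) (1 : ℂ)
  have mT : ∀ t ∈ T₀, t ≠ 0 ∧ t ^ A = 1 ∧ t ≠ 1 := fun t ht => by
    simp only [T₀, Finset.mem_sdiff, Polynomial.mem_nthRootsFinset hA0, Finset.mem_singleton] at ht
    exact ⟨ne_zero_of_pow hA0 ht.1, ht⟩
  have mN₁ : ∀ t ∈ N₁, t ≠ 0 ∧ t ^ B = 1 ∧ t ^ p ≠ 1 ∧ t ≠ 1 := fun t ht => by
    simp only [N₁, Finset.mem_sdiff, Polynomial.mem_nthRootsFinset hB0,
      Polynomial.mem_nthRootsFinset hp0] at ht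
    exact ⟨ne_zero_of_pow hB0 ht.1, ht.1, ht.2, fun h => ht.2 (by rw [h, one_pow])⟩
  have mN₂ : ∀ t ∈ N₂, t ≠ 0 ∧ t ^ D = 1 ∧ t ^ (p + 3) ≠ 1 ∧ t ≠ 1 := fun t ht => by
    simp only [N₂, Finset.mem_sdiff, Polynomial.mem_nthRootsFinset hD0,
      Polynomial.mem_nthRootsFinset (by omega : 0 < p + 3)] at ht
    exact ⟨ne_zero_of_pow hD0 ht.1, ht.1, ht.2, fun h => ht.2 (by rw [h, one_pow])⟩
  have cT : A - 1 ≤ T₀.card := by
    have := Finset.le_card_sdiff ({1} : Finset ℂ) (Polynomial.nthRootsFinset A (1 : ℂ))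
    rwa [card_roots hA0, Finset.card_singleton] at this
  have cN₁ : B - p ≤ N₁.card := by
    have := Finset.le_card_sdiff (Polynomial.nthRootsFinset p (1 : ℂ))
      (Polynomial.nthRootsFinset B (1 : ℂ))
    rwa [card_roots hB0, card_roots hp0] at this
  have cN₂ : D - (p + 3) ≤ N₂.card := by
    have := Finset.le_card_sdiff (Polynomial.nthRootsFinset (p + 3) (1 : ℂ))
      (Polynomial.nthRootsFinset D (1 : ℂ))
    rwa [card_roots hD0, card_roots (by omega)] at this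
  have fT : T₀.card ≤ 3 * (T₀.image (cp (p + 1))).card := by
    refine Finset.card_le_mul_card_image _ _ fun a ha => ?_
    obtain ⟨t, ht, rfl⟩ := Finset.mem_image.1 ha
    refine le_trans (Finset.card_le_card (t := {t ^ (p + 1), t, (t ^ (p + 1 + 1))⁻¹}) ?_)
      Finset.card_le_three
    intro s hs
    rw [Finset.mem_filter] at hs
    simpa using root_of_cp_eq (mT s hs.1).1 (mT t ht).1 hs.2
  have fN₁ : N₁.card ≤ 2 * (N₁.image (cp (p + 1))).card := by
    refine Finset.card_le_mul_card_image _ _ fun a ha => ?_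
    obtain ⟨t, ht, rfl⟩ := Finset.mem_image.1 ha
    refine le_trans (Finset.card_le_card (t := {t ^ (p + 1), t}) ?_) Finset.card_le_two
    intro s hs
    rw [Finset.mem_filter] at hs
    rcases root_of_cp_eq (mN₁ s hs.1).1 (mN₁ t ht).1 hs.2 with h | h | h
    · simp [h]
    · simp [h]
    · refine absurd ?_ (mN₁ s hs.1).2.2.1
      rw [h, inv_pow, ← pow_mul, (mN₁ t ht).2.1, inv_one]
  have fN₂ : N₂.card ≤ 2 * (N₂.image (cp (p + 1))).card := by
    refine Finset.card_le_mul_card_image _ _ fun a ha => ?_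
    obtain ⟨t, ht, rfl⟩ := Finset.mem_image.1 ha
    refine le_trans (Finset.card_le_card (t := {t, (t ^ (p + 1 + 1))⁻¹}) ?_) Finset.card_le_two
    intro s hs
    rw [Finset.mem_filter] at hs
    rcases root_of_cp_eq (mN₂ s hs.1).1 (mN₂ t ht).1 hs.2 with h | h | h
    · refine absurd ?_ (mN₂ s hs.1).2.2.1
      rw [h, ← pow_mul, (mN₂ t ht).2.1]
    · simp [h]
    · simp [h]
  have hdisj : Disjoint (N₁.image (cp (p + 1))) (N₂.image (cp (p + 1))) := by
    rw [Finset.disjoint_left]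
    intro x hx hy
    obtain ⟨s, hs, rfl⟩ := Finset.mem_image.1 hx
    obtain ⟨t, ht, h⟩ := Finset.mem_image.1 hy
    exact (mN₁ s hs).2.2.2 (eq_one_of_cop cBD (mN₁ s hs).2.1
      (pow_eq_one_of_cp_eq (mN₁ s hs).1 (mN₂ t ht).1 h.symm (mN₂ t ht).2.1))
  refine ⟨T₀.image (cp (p + 1)), N₁.image (cp (p + 1)) ∪ N₂.image (cp (p + 1)), ?_, ?_, ?_, ?_, ?_⟩
  · rw [Finset.disjoint_left]
    intro x hx hy
    obtain ⟨s, hs, rfl⟩ := Finset.mem_image.1 hx
    rcases Finset.mem_union.1 hy with hy | hy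
    · obtain ⟨t, ht, h⟩ := Finset.mem_image.1 hy
      exact (mT s hs).2.2 (eq_one_of_cop cAB (mT s hs).2.1
        (pow_eq_one_of_cp_eq (mT s hs).1 (mN₁ t ht).1 h.symm (mN₁ t ht).2.1))
    · obtain ⟨t, ht, h⟩ := Finset.mem_image.1 hy
      exact (mT s hs).2.2 (eq_one_of_cop cAD (mT s hs).2.1
        (pow_eq_one_of_cp_eq (mT s hs).1 (mN₂ t ht).1 h.symm (mN₂ t ht).2.1))
  · intro x hx
    obtain ⟨t, ht, rfl⟩ := Finset.mem_image.1 hx
    obtain ⟨h0, h1, h2⟩ := mT t ht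
    exact triple_point hG hG0 hV h0 (fun h => h2 (eq_one_of_cop cA0 h1 (d1 t h0 h)))
      (fun h => h2 (eq_one_of_cop cA4 h1 (d2 t h0 h)))
      (fun h => h2 (eq_one_of_cop cA3 h1 (d3 t h0 h))) h1
  · intro x hx
    rcases Finset.mem_union.1 hx with hx | hx
    · obtain ⟨t, ht, rfl⟩ := Finset.mem_image.1 hx
      obtain ⟨h0, h1, h2, h3⟩ := mN₁ t ht
      refine node_one hG hG0 hV h0 (fun h => h2 (d1 t h0 h))
        (fun h => h3 (eq_one_of_cop cB4 h1 (d2 t h0 h)))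
        (fun h => h3 (eq_one_of_cop cB3 h1 (d3 t h0 h))) (by omega) ?_
      rw [show (p + 1) * (p + 1) = B + 1 by rw [hB]; ring, pow_succ, h1, one_mul]
    · obtain ⟨t, ht, rfl⟩ := Finset.mem_image.1 hx
      obtain ⟨h0, h1, h2, h3⟩ := mN₂ t ht
      exact node_two hG hG0 hV h0 (fun h => h3 (eq_one_of_cop cD0 h1 (d1 t h0 h)))
        (fun h => h3 (eq_one_of_cop cD4 h1 (d2 t h0 h)))
        (fun h => h2 (d3 t h0 h)) (by omega) h1
  · have : A - 1 = (p + 1) * (p + 2) := by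
      rw [hA, Nat.add_sub_cancel]; ring
    omega
  · rw [Finset.card_union_of_disjoint hdisj]
    have e1 : B - p = p * (p + 1) := by
      rw [show B = p * (p + 1) + p by rw [hB]; ring, Nat.add_sub_cancel]
    have e2 : D - (p + 3) = p * (p + 3) := by
      rw [show D = p * (p + 3) + (p + 3) by rw [hD]; ring, Nat.add_sub_cancel]
    have e3 : p * (p + 1) + p * (p + 3) = 2 * (p * (p + 2)) := by ring
    omega

end Pool.Agent.Lib.MP_81ecef_ag
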